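import Mathlib
import Pool.Agent.N178.HW.StmC

/-!
# Matrices which kill all invariant tensors
-/

set_option linter.unusedSectionVars false

namespace Pool.Agent.N459.HW

open Finset Matrix Module Pool.Agent.W437.HC Pool.Agent.W437.HD Pool.Agent.Y90 Pool.Agent.R915
open Pool.Agent.W548.Odd hiding cv
open Pool.Agent.H204R3.SP (Kills bil2 bil2_apply IsTate)
open Pool.Agent.W522.U (exists_reps exists_st Du)

noncomputable section

section det

variable {V : Type*} [AddCommGroup V] [Module ℂ V]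

/-- The derivative of the determinant is the trace. -/
theorem det_trace {ι : Type*} [Fintype ι] [DecidableEq ι] (f : Basis ι ℂ V) (A : V →ₗ[ℂ] V)
    (w : ι → V) : ∑ y, f.det (Function.update w y (A (w y))) = LinearMap.trace ℂ V A * f.det w := by
  set M := f.toMatrix w with hM
  set T := LinearMap.toMatrix f f A with hT
  have h1 : ∀ y, f.det (Function.update w y (A (w y))) = (M.adjugate * (T * M)) y y := by
    intro y
    rw [Basis.det_apply]
    have h2 : f.toMatrix (Function.update w y (A (w y))) = M.updateCol y ((T * M).col y) := by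
      ext i j
      by_cases hj : j = y
      · subst hj
        rw [Matrix.updateCol_self, Basis.toMatrix_apply, Function.update_self]
        have h3 : f.repr (A (w j)) = T *ᵥ (f.repr (w j)) := by
          rw [hT, LinearMap.toMatrix_mulVec_repr]
        rw [h3]
        rfl
      · rw [Matrix.updateCol_ne hj, Basis.toMatrix_apply, Function.update_of_ne hj]
        rfl
    rw [h2, ← Matrix.cramer_apply, Matrix.cramer_eq_adjugate_mulVec]
    rfl
  rw [Finset.sum_congr rfl fun y _ => h1 y]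
  change Matrix.trace (M.adjugate * (T * M)) = _
  rw [Matrix.trace_mul_comm, Matrix.mul_assoc, Matrix.mul_adjugate, Matrix.mul_smul,
    Matrix.mul_one, Matrix.trace_smul, smul_eq_mul, LinearMap.trace_eq_matrix_trace ℂ f,
    Basis.det_apply, mul_comm]

end det

section sys

variable {X : Type*} [AddCommGroup X] [Module ℂ X]

/-- The forms killed by an operator. -/
def NK (N : End ℂ X) (κ : Type) [Finite κ] : Submodule ℂ (MultilinearMap ℂ (fun _ : κ => X) ℂ) where
  carrier := {F | ∀ (_ : Fintype κ) (_ : DecidableEq κ), Kills N F}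
  add_mem' := by
    intro F F' hF hF' i1 i2 v
    have h1 := hF i1 i2 v
    have h2 := hF' i1 i2 v
    simp only [_root_.add_apply, Finset.sum_add_distrib]
    rw [h1, h2, add_zero]
  zero_mem' := by
    intro i1 i2 v
    simp
  smul_mem' := by
    intro c F hF i1 i2 v
    have h1 := hF i1 i2 v
    simp only [_root_.smul_apply, smul_eq_mul]
    rw [← Finset.mul_sum, h1, mul_zero]

theorem clo_NK (N : End ℂ X) : Clo (NK N) := by
  classical
  constructor
  · intro κ _ he φ i1 i2 v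
    exact Finset.sum_eq_zero fun k _ => (he.false k).elim
  · intro κ κ' κ'' _ _ _ e φ φ' ψ hφ hφ' hψ i1 i2 v
    let _ : Fintype κ := Fintype.ofFinite κ
    let _ : Fintype κ' := Fintype.ofFinite κ'
    rw [← e.sum_comp, Fintype.sum_sum_type]
    have h1 := hφ inferInstance inferInstance (fun k => v (e (Sum.inl k)))
    have h2 := hφ' inferInstance inferInstance (fun k => v (e (Sum.inr k)))
    have e1 : ∀ k : κ, ψ (Function.update v (e (Sum.inl k)) (N (v (e (Sum.inl k))))) =
        φ (Function.update (fun k => v (e (Sum.inl k))) k (N (v (e (Sum.inl k))))) *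
          φ' (fun k => v (e (Sum.inr k))) := by
      intro k
      rw [hψ]
      congr 2
      · funext l
        by_cases hl : l = k
        · subst hl
          rw [Function.update_self, Function.update_self]
        · rw [Function.update_of_ne hl, Function.update_of_ne]
          intro h3
          exact hl (Sum.inl_injective (e.injective h3))
      · funext l
        rw [Function.update_of_ne]
        intro h3
        exact Sum.inr_ne_inl (e.injective h3)
    have e2 : ∀ k : κ', ψ (Function.update v (e (Sum.inr k)) (N (v (e (Sum.inr k))))) =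
        φ (fun k => v (e (Sum.inl k))) *
          φ' (Function.update (fun k => v (e (Sum.inr k))) k (N (v (e (Sum.inr k))))) := by
      intro k
      rw [hψ]
      congr 2
      · funext l
        rw [Function.update_of_ne]
        intro h3
        exact Sum.inl_ne_inr (e.injective h3)
      · funext l
        by_cases hl : l = k
        · subst hl
          rw [Function.update_self, Function.update_self]
        · rw [Function.update_of_ne hl, Function.update_of_ne]
          intro h3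
          exact hl (Sum.inr_injective (e.injective h3))
    rw [Finset.sum_congr rfl fun k _ => e1 k, Finset.sum_congr rfl fun k _ => e2 k,
      ← Finset.sum_mul, ← Finset.mul_sum, h1, h2, zero_mul, mul_zero, add_zero]

end sys

section main

variable {g : ℕ} {Z : Matrix (Fin g) (Fin g) ℂ}

theorem ct_iff (c : Matrix (Fin g ⊕ Fin g) (Fin g ⊕ Fin g) ℂ) :
    Pool.Agent.Y4.H.Ct Z c ↔ ∀ X ∈ LZ Z, c * X = X * c := by
  unfold Pool.Agent.Y4.H.Ct Pool.Agent.W548.Odd.InCm
  rw [← img_eq]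
  rfl

theorem om_skew {N : Matrix (Fin g ⊕ Fin g) (Fin g ⊕ Fin g) ℂ}
    (h1 : Nᵀ * Om g ℂ + Om g ℂ * N = 0) (u v : Fin g ⊕ Fin g → ℂ) :
    om g (N *ᵥ u) v + om g u (N *ᵥ v) = 0 := by
  rw [om_apply, om_apply, mulVec_mulVec, ← vecMul_transpose, ← dotProduct_mulVec,
    mulVec_mulVec, ← dotProduct_add, ← add_mulVec, h1, zero_mulVec, dotProduct_zero]

/-- Bilinear forms and matrices. -/
theorem exists_bil (b : (Fin g ⊕ Fin g → ℂ) →ₗ[ℂ] (Fin g ⊕ Fin g → ℂ) →ₗ[ℂ] ℂ) :
    ∃ c : Matrix (Fin g ⊕ Fin g) (Fin g ⊕ Fin g) ℂ, ∀ u v, b u v = om g (c *ᵥ u) v := by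
  let Bm : Matrix (Fin g ⊕ Fin g) (Fin g ⊕ Fin g) ℂ := LinearMap.toMatrix₂' ℂ b
  have hB : ∀ u v, b u v = u ⬝ᵥ (Bm *ᵥ v) := by
    intro u v
    have h1 : Matrix.toLinearMap₂' ℂ Bm = b := Matrix.toLinearMap₂'_toMatrix' b
    conv_lhs => rw [← h1]
    rw [Matrix.toLinearMap₂'_apply']
  refine ⟨(-(Bm * Om g ℂ))ᵀ, fun u v => ?_⟩
  rw [hB, om_apply, mulVec_transpose, ← dotProduct_mulVec, mulVec_mulVec,
    Matrix.neg_mul, Matrix.mul_assoc, Om_sq, Matrix.mul_neg, Matrix.mul_one, neg_neg]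

variable (h : PM Z) {N : Matrix (Fin g ⊕ Fin g) (Fin g ⊕ Fin g) ℂ}
  (hN : ∀ c, Pool.Agent.Y4.H.Ct Z c → N * c = c * N)
include h hN

/-- Equivariant maps commute with `N`. -/
theorem comm_N (T : (Fin g ⊕ Fin g → ℂ) →ₗ[ℂ] (Fin g ⊕ Fin g → ℂ))
    (hT : ∀ X ∈ LZ Z, ∀ u, T (X *ᵥ u) = X *ᵥ T u) (u : Fin g ⊕ Fin g → ℂ) :
    T (N *ᵥ u) = N *ᵥ T u := by
  have hc : ∀ u, LinearMap.toMatrix' T *ᵥ u = T u := by
    intro u
    rw [← Matrix.toLin'_apply, Matrix.toLin'_toMatrix']
  have h1 := hN (LinearMap.toMatrix' T) ((ct_iff _).2 fun X hX => by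
    apply Matrix.toLin'.injective
    refine LinearMap.ext fun v => ?_
    rw [Matrix.toLin'_apply, Matrix.toLin'_apply, ← mulVec_mulVec, ← mulVec_mulVec, hc, hc,
      hT X hX])
  rw [← hc, ← hc, mulVec_mulVec, mulVec_mulVec, h1]

theorem stab_N {W : Submodule ℂ (Fin g ⊕ Fin g → ℂ)} (hW : Stab (LZ Z) W) :
    ∀ u ∈ W, N *ᵥ u ∈ W := by
  obtain ⟨π, h1, h2, h3⟩ := h.cred W hW
  intro u hu
  have h4 := comm_N h hN π h1 u
  rw [h3 u hu] at h4
  rw [← h4]
  exact h2 _

theorem pair_N (hsk : Nᵀ * Om g ℂ + Om g ℂ * N = 0)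
    (b : (Fin g ⊕ Fin g → ℂ) →ₗ[ℂ] (Fin g ⊕ Fin g → ℂ) →ₗ[ℂ] ℂ)
    (hb : ∀ γ u v, b (RZ Z γ u) (RZ Z γ v) = (1 : Gam (GG (LZ Z)) →* ℂ) γ * b u v) :
    bil2 b ∈ NK (ph _ N) (Fin 2) := by
  intro i1 i2
  obtain rfl : i1 = Fin.fintype 2 := Subsingleton.elim _ _
  obtain rfl : i2 = instDecidableEqFin 2 := Subsingleton.elim _ _
  intro v
  have h1 := (rz_bil h stab_top stab_top b).1 (fun γ u _ v _ => by
    rw [hb, MonoidHom.one_apply, one_mul])
  obtain ⟨c, hc⟩ := exists_bil b
  have h2 : ∀ X ∈ LZ Z, ∀ u, c *ᵥ (X *ᵥ u) = X *ᵥ (c *ᵥ u) := by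
    intro X hX u
    rw [← sub_eq_zero]
    refine om_nd _ fun w => ?_
    have h3 := h1 X hX u trivial w trivial
    have h4 := h.om_sp hX (c *ᵥ u) w
    rw [hc, hc] at h3
    rw [map_sub, LinearMap.sub_apply]
    linear_combination h3 - h4
  have h3 : ∀ u, c *ᵥ (N *ᵥ u) = N *ᵥ (c *ᵥ u) := fun u =>
    comm_N h hN (Matrix.mulVecLin c) (fun X hX u => h2 X hX u) u
  rw [Fin.sum_univ_two]
  change b (N *ᵥ v 0) (v 1) + b (v 0) (N *ᵥ v 1) = 0
  rw [hc, hc, h3]
  exact om_skew hsk _ _

/-- Balanced products of determinants are killed. -/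
theorem det_N {lam : ℂ}
    (htr : ∀ W, IrS (LZ Z) W → ∀ hN : ∀ u ∈ W, mulVecLin N u ∈ W,
      LinearMap.trace ℂ W ((mulVecLin N).restrict hN) = lam * tr Z W)
    {S : Type} [Fintype S] (W : S → Submodule ℂ (Fin g ⊕ Fin g → ℂ))
    (hW : ∀ q, IrS (LZ Z) (W q)) (hbal : ∑ q, tr Z (W q) = 0)
    (ι : S → Type) [∀ q, Fintype (ι q)] [∀ q, DecidableEq (ι q)] (f : ∀ q, Basis (ι q) ℂ (W q))
    (p : ∀ q, ι q → (Fin g ⊕ Fin g → ℂ) →ₗ[ℂ] W q)
    (hp : ∀ q y γ x, (p q y (RZ Z γ x) : Fin g ⊕ Fin g → ℂ) = RZ Z γ (p q y x))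
    (ψ : MultilinearMap ℂ (fun _ : (Σ q, ι q) => Fin g ⊕ Fin g → ℂ) ℂ)
    (hψ : ∀ v, ψ v = ∏ q, (f q).det (fun y => p q y (v ⟨q, y⟩))) :
    ψ ∈ NK (ph _ N) (Σ q, ι q) := by
  classical
  have hst : ∀ q, ∀ u ∈ W q, mulVecLin N u ∈ W q := fun q => stab_N h hN (hW q).2.1
  have hpN : ∀ q y x, p q y (N *ᵥ x) = ((mulVecLin N).restrict (hst q)) (p q y x) := by
    intro q y x
    apply Subtype.ext
    have h1 := (rz_equiv h stab_top ((W q).subtype.comp (p q y))).1 (fun γ u _ => hp q y γ u)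
    exact comm_N h hN ((W q).subtype.comp (p q y)) (fun X hX u => h1 X hX u trivial) x
  intro i1 i2 v
  obtain rfl : i1 = Sigma.instFintype := Subsingleton.elim _ _
  rw [Fintype.sum_sigma]
  have e1 : ∀ q y, ψ (Function.update v ⟨q, y⟩ (ph _ N (v ⟨q, y⟩))) =
      (f q).det (Function.update (fun y => p q y (v ⟨q, y⟩)) y
        (((mulVecLin N).restrict (hst q)) (p q y (v ⟨q, y⟩)))) *
      ∏ q' ∈ univ.erase q, (f q').det (fun y => p q' y (v ⟨q', y⟩)) := by
    intro q y
    rw [hψ, ← Finset.mul_prod_erase _ _ (Finset.mem_univ q)]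
    congr 1
    · congr 1
      funext y'
      by_cases hy : y' = y
      · subst hy
        rw [Function.update_self, Function.update_self, ← hpN]
        rfl
      · rw [Function.update_of_ne hy, Function.update_of_ne]
        intro h3
        exact hy (by simpa using h3)
    · refine Finset.prod_congr rfl fun q' hq' => ?_
      congr 1
      funext y'
      rw [Function.update_of_ne]
      intro h3
      exact Finset.ne_of_mem_erase hq' (congrArg Sigma.fst h3)
  have e2 : ∀ q, ∑ y, ψ (Function.update v ⟨q, y⟩ (ph _ N (v ⟨q, y⟩))) =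
      (lam * tr Z (W q)) * ψ v := by
    intro q
    rw [Finset.sum_congr rfl fun y _ => e1 q y, ← Finset.sum_mul, det_trace (f q), htr _ (hW q),
      mul_assoc, Finset.mul_prod_erase univ
        (fun q => (f q).det (fun y => p q y (v ⟨q, y⟩))) (Finset.mem_univ q), ← hψ]
  rw [Finset.sum_congr rfl fun q _ => e2 q, ← Finset.sum_mul, ← Finset.mul_sum]
  have e3 : ∑ q, ((tr Z (W q) : ℤ) : ℂ) = 0 := by
    rw [← Int.cast_sum, hbal, Int.cast_zero]
  rw [e3, mul_zero, zero_mul]

theorem inv_N (hs : LCF' Z) {lam : ℂ} (hsk : Nᵀ * Om g ℂ + Om g ℂ * N = 0)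
    (htr : ∀ W, IrS (LZ Z) W → ∀ hN : ∀ u ∈ W, mulVecLin N u ∈ W,
      LinearMap.trace ℂ W ((mulVecLin N).restrict hN) = lam * tr Z W) {m : ℕ}
    (φ : MultilinearMap ℂ (fun _ : Fin m × Fin 2 => Fin g ⊕ Fin g → ℂ) ℂ)
    (hφ : ∀ (γ : Gam (GG (LZ Z))) v, φ (fun k => RZ Z γ (v k)) = φ v) :
    φ ∈ NK (ph _ N) (Fin m × Fin 2) := by
  have hSI : ∀ {U}, W522.U.SI (RZ Z) U ↔ IrS (LZ Z) U := fun {U} => si_iff h.genI
  obtain ⟨s, W, hW, hWW, hall⟩ := exists_reps (rz_proj h)
  obtain ⟨st, hst, hDu, hDu'⟩ := exists_st (χ := 1) (rz_proj h) (om g) om_nd (rz_om h) W hW hWW hall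
  refine forms_mem' (χ := 1) (fun Δ hΔ => fi_top Δ hΔ) (om g) om_nd (rz_om h) ?_ ?_ ?_ (rz_proj h)
    W hW hWW hall st hst hDu hDu' (fun κ _ => NK (ph _ N) κ) (clo_NK _) (pair_N h hN hsk)
    ?_ φ ?_
  · intro U hU hn
    exact rz_unip h ((loc2 h hs (hSI.1 hU)).1 hn).1
  · intro U hU hn
    exact rz_line h (hSI.1 hU) hn
  · intro U U' hU hU' hn _ ψ hT
    exact rz_twist h (hSI.1 hU) (hSI.1 hU') ((loc2 h hs (hSI.1 hU)).1 hn).2 ψ hT
  · intro a ha hag ι _ _ f p hp ψ hψ
    exact det_N h hN htr (fun q : (Σ i, Fin (a i).toNat) => W q.1) (fun q => hSI.1 (hW q.1))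
      (bal_sum h W (fun i => hSI.1 (hW i)) st hst hDu a ha hag (RingEquiv.refl ℂ)) ι f p hp ψ hψ
  · refine ⟨⊤, inferInstance, fun γ _ v => ?_⟩
    rw [MonoidHom.one_apply, one_pow, one_mul]
    exact hφ γ v

end main

theorem t_TK : Pool.Agent.N178.HW.S_TK := by
  classical
  intro g Z h hs N lam hN hsk htr m c hc
  set φ := evalM c with hφ
  have hcf : CF φ = c := by
    funext I
    unfold CF
    rw [hφ, evalM_apply, evalF_single]
  have hinv : ∀ (γ : Gam (GG (LZ Z))) v, φ (fun k => RZ Z γ (v k)) = φ v := by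
    intro γ v
    refine inv_gam _ (fun D hD _ => ?_) γ v
    obtain ⟨X, hX, rfl⟩ := exists_GG hD
    refine kills_of_act ?_
    rw [hcf]
    exact hc X hX
  have key : Kills (ph _ N) φ := by
    rcases Nat.even_or_odd m with he | ho
    · obtain ⟨n, hn⟩ := he
      have e : Fin m ≃ Fin n × Fin 2 := Fintype.equivOfCardEq (by
        rw [Fintype.card_prod, Fintype.card_fin, Fintype.card_fin, Fintype.card_fin, hn]
        ring)
      have h1 := inv_N h hN hs hsk htr (φ.domDomCongr e) (fun γ v => by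
        rw [MultilinearMap.domDomCongr_apply, MultilinearMap.domDomCongr_apply]
        exact hinv γ _)
      have h2 : φ ∈ NK (ph _ N) (Fin m) := (clo_NK _).reindex e.symm h1 φ fun v => by
        rw [MultilinearMap.domDomCongr_apply]
        congr 1
        funext k
        simp
      exact h2 _ _
    · have h0 : φ = 0 := by
        refine MultilinearMap.ext fun v => ?_
        have h1 := hinv (gt (D := ph _ (DZ Z)) (by rw [← map_mul, DZ_sq h.det, map_one])
          (mem_GG.2 DZ_mem) (-1)) v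
        have h2 : (fun k => RZ Z (gt (D := ph _ (DZ Z)) (by rw [← map_mul, DZ_sq h.det, map_one])
          (mem_GG.2 DZ_mem) (-1)) (v k)) = fun k => (-1 : ℂ) • v k := by
          funext k
          change torE (ph _ (DZ Z)) (-1) (v k) = _
          rw [torE_apply]
          simp only [Units.val_neg, Units.val_one, inv_neg, inv_one]
          module
        rw [h2, MultilinearMap.map_smul_univ, Finset.prod_const, Finset.card_univ,
          Fintype.card_fin, Odd.neg_one_pow ho, neg_one_smul] at h1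
        have h3 : φ v = 0 := by linear_combination (-1 / 2 : ℂ) * h1
        rw [h3]
        rfl
      rw [h0]
      intro v
      exact Finset.sum_eq_zero fun k _ => rfl
  have h1 := act_of_kills key
  rwa [hcf] at h1

end

end Pool.Agent.N459.HW
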